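import Pool.Agent.H74.CM.Column

/-!
The code of an active (or exceptional) column in abstract form: the positions and rounded values
of a sparse function, and the resulting candidates for the tested functional.
-/

set_option autoImplicit false

namespace Pool.Agent.H74.CM

open Finset

/-- The refinement step for an arbitrary small set `E`: rounding of `g - φ₀` on `E`, the
prediction `p` off `E`. -/
theorem refine_code_set {Mu : Type*} [Fintype Mu] [DecidableEq Mu] (p φ₀ : Mu → ℂ) (θ R : ℝ)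
    (hθ : 0 < θ) (r : ℕ) (hr : 0 < r) :
    ∃ PP : Finset (Mu → ℂ),
      (PP.card : ℝ) ≤
        (Real.exp 1 * (Fintype.card Mu * (2 * (⌈R / θ⌉₊ : ℝ) + 3) ^ 2 + 1 + r) / r) ^ r ∧
      ∀ (g : Mu → ℂ) (E : Finset Mu), (∀ μ ∈ E, ‖g μ - φ₀ μ‖ ≤ R) → E.card ≤ r →
        ∃ q ∈ PP, (∀ μ ∈ E, ‖g μ - q μ‖ ≤ θ) ∧ ∀ μ, μ ∉ E → q μ = p μ := by
  classical
  set B : ℕ := ⌈R / θ⌉₊ + 1 with hB
  set box : Finset (ℤ × ℤ) := Finset.Icc (-(B : ℤ)) B ×ˢ Finset.Icc (-(B : ℤ)) B with hbox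
  set D : Sym (Option (Mu × box)) r → Mu → ℂ := fun s μ =>
    if h : ∃ z : box, (some (μ, z) : Option (Mu × box)) ∈ (s : Multiset (Option (Mu × box))) then
      φ₀ μ + lat θ h.choose.1 else p μ
    with hD
  refine ⟨Finset.univ.image D, ?_, fun g E hg hE => ?_⟩
  · have h1 : ((Finset.univ.image D).card : ℝ) ≤ Fintype.card (Sym (Option (Mu × box)) r) := by
      exact_mod_cast Finset.card_image_le.trans (by simp)
    refine h1.trans ((card_sym_le r hr).trans (le_of_eq ?_))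
    have h2 : (Fintype.card (Option (Mu × box)) : ℝ) =
        Fintype.card Mu * (2 * (⌈R / θ⌉₊ : ℝ) + 3) ^ 2 + 1 := by
      rw [Fintype.card_option, Fintype.card_prod, Fintype.card_coe, hbox,
        Finset.card_product, Int.card_Icc, hB]
      have h3 : ((((⌈R / θ⌉₊ + 1 : ℕ) : ℤ) + 1 - -((⌈R / θ⌉₊ + 1 : ℕ) : ℤ)).toNat : ℕ) =
          2 * ⌈R / θ⌉₊ + 3 := by omega
      rw [h3]
      push_cast
      ring
    rw [h2]
  · -- enumerate E
    obtain ⟨f, hf⟩ : ∃ f : Fin r → Option Mu, ∀ μ, (∃ i, f i = some μ) ↔ μ ∈ E := by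
      have hcard : Fintype.card E ≤ Fintype.card (Fin r) := by
        rw [Fintype.card_coe, Fintype.card_fin]
        exact hE
      obtain ⟨emb⟩ := Function.Embedding.nonempty_of_card_le hcard
      refine ⟨fun i => if h : ∃ x : E, emb x = i then some h.choose.1 else none, fun μ => ?_⟩
      constructor
      · rintro ⟨i, hi⟩
        beta_reduce at hi
        by_cases h : ∃ x : E, emb x = i
        · rw [dif_pos h] at hi
          have := h.choose.2
          rw [Option.some.injEq] at hi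
          rw [← hi]
          exact this
        · rw [dif_neg h] at hi
          exact absurd hi (by simp)
      · intro hμ
        refine ⟨emb ⟨μ, hμ⟩, ?_⟩
        have h : ∃ x : E, emb x = emb ⟨μ, hμ⟩ := ⟨_, rfl⟩
        beta_reduce
        rw [dif_pos h]
        have h1 := emb.injective h.choose_spec
        rw [h1]
    have hbx : ∀ μ ∈ E, rnd θ (g μ - φ₀ μ) ∈ box := by
      intro μ hμE
      obtain ⟨h1, h2⟩ := rnd_bound hθ (g μ - φ₀ μ) (hg μ hμE)
      have hR0 : 0 ≤ R := (norm_nonneg _).trans (hg μ hμE)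
      have h3 : (⌈R / θ⌉ : ℤ) = (⌈R / θ⌉₊ : ℤ) := by
        rw [Int.natCast_ceil_eq_ceil (by positivity)]
      rw [h3] at h1 h2
      have h4 := abs_le.mp h1
      have h5 := abs_le.mp h2
      rw [hbox, Finset.mem_product, Finset.mem_Icc, Finset.mem_Icc, hB]
      push_cast
      exact ⟨⟨by linarith [h4.1], by linarith [h4.2]⟩, ⟨by linarith [h5.1], by linarith [h5.2]⟩⟩
    have hz0 : ((0 : ℤ), (0 : ℤ)) ∈ box := by
      rw [hbox, Finset.mem_product, Finset.mem_Icc]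
      simp
    set v : Mu → box := fun μ => if h : μ ∈ E then ⟨rnd θ (g μ - φ₀ μ), hbx μ h⟩ else
      ⟨(0, 0), hz0⟩ with hv
    set k : Fin r → Option (Mu × box) := fun i => (f i).map (fun μ => (μ, v μ)) with hk
    refine ⟨D (symOf k), Finset.mem_image_of_mem _ (Finset.mem_univ _), ?_, ?_⟩
    · intro μ hμ
      have hval : ∀ z : box, (some (μ, z) : Option (Mu × box)) ∈
          (symOf k : Multiset (Option (Mu × box))) → z = v μ := by
        intro z hz
        rw [mem_symOf] at hz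
        obtain ⟨i, hi⟩ := hz
        simp only [hk] at hi
        rw [Option.map_eq_some_iff] at hi
        obtain ⟨ν, hν1, hν2⟩ := hi
        rw [Prod.mk.injEq] at hν2
        obtain ⟨rfl, h2⟩ := hν2
        exact h2.symm
      have hex : ∃ z : box, (some (μ, z) : Option (Mu × box)) ∈
          (symOf k : Multiset (Option (Mu × box))) := by
        obtain ⟨i, hi⟩ := (hf μ).mpr hμ
        refine ⟨v μ, ?_⟩
        rw [mem_symOf]
        refine ⟨i, ?_⟩
        simp only [hk]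
        rw [hi]
        rfl
      simp only [hD]
      rw [dif_pos hex, hval _ hex.choose_spec]
      simp only [hv]
      rw [dif_pos hμ]
      have := norm_sub_lat_rnd hθ (g μ - φ₀ μ)
      rwa [← sub_sub]
    · intro μ hμ
      have hex : ¬ ∃ z : box, (some (μ, z) : Option (Mu × box)) ∈
          (symOf k : Multiset (Option (Mu × box))) := by
        rintro ⟨z, hz⟩
        rw [mem_symOf] at hz
        obtain ⟨i, hi⟩ := hz
        simp only [hk] at hi
        rw [Option.map_eq_some_iff] at hi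
        obtain ⟨ν, hν1, hν2⟩ := hi
        rw [Prod.mk.injEq] at hν2
        obtain ⟨rfl, -⟩ := hν2
        exact hμ ((hf _).mp ⟨i, hν1⟩)
      simp only [hD]
      rw [dif_neg hex]

/-- Positions and rounded values of a sparse function. -/
theorem sparse_code {Mu : Type*} [Fintype Mu] [DecidableEq Mu] (φ₀ : Mu → ℂ) (θ R : ℝ)
    (hθ : 0 < θ) (r : ℕ) (hr : 0 < r) :
    ∃ PP : Finset (Mu → ℂ),
      (PP.card : ℝ) ≤
        (Real.exp 1 * (Fintype.card Mu * (2 * (⌈R / θ⌉₊ : ℝ) + 3) ^ 2 + 1 + r) / r) ^ r ∧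
      ∀ g : Mu → ℂ, (∀ μ, ‖g μ - φ₀ μ‖ ≤ R) →
        (Finset.univ.filter (fun μ => g μ ≠ 0)).card ≤ r →
        ∃ q ∈ PP, (∀ μ, ‖g μ - q μ‖ ≤ θ) ∧ (∀ μ, g μ = 0 → q μ = 0) ∧
          ∑ μ, ‖g μ - q μ‖ ^ 2 ≤ r * θ ^ 2 := by
  classical
  obtain ⟨PP, h1, h2⟩ := refine_code_set (0 : Mu → ℂ) φ₀ θ R hθ r hr
  refine ⟨PP, h1, fun g hg hc => ?_⟩
  obtain ⟨q, hq, hq1, hq2⟩ := h2 g (Finset.univ.filter (fun μ => g μ ≠ 0))
    (fun μ _ => hg μ) hc
  have hz : ∀ μ, g μ = 0 → q μ = 0 := by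
    intro μ hμ
    have := hq2 μ (by simp [hμ])
    simpa using this
  have hall : ∀ μ, ‖g μ - q μ‖ ≤ θ := by
    intro μ
    by_cases hμ : g μ = 0
    · rw [hμ, hz μ hμ]
      simpa using hθ.le
    · exact hq1 μ (by simp [hμ])
  refine ⟨q, hq, hall, hz, ?_⟩
  calc ∑ μ, ‖g μ - q μ‖ ^ 2 = ∑ μ ∈ Finset.univ.filter (fun μ => g μ ≠ 0), ‖g μ - q μ‖ ^ 2 := by
        symm
        refine Finset.sum_subset (Finset.filter_subset _ _) fun μ _ hμ => ?_
        rw [Finset.mem_filter] at hμ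
        have h3 : g μ = 0 := by
          by_contra h
          exact hμ ⟨Finset.mem_univ _, h⟩
        rw [h3, hz μ h3]
        simp
    _ ≤ ∑ _μ ∈ Finset.univ.filter (fun μ => g μ ≠ 0), θ ^ 2 :=
        Finset.sum_le_sum fun μ _ => pow_le_pow_left₀ (norm_nonneg _) (hall μ) 2
    _ = ((Finset.univ.filter (fun μ => g μ ≠ 0)).card : ℝ) * θ ^ 2 := by
        rw [Finset.sum_const, nsmul_eq_mul]
    _ ≤ r * θ ^ 2 := by
        have : ((Finset.univ.filter (fun μ => g μ ≠ 0)).card : ℝ) ≤ r := by exact_mod_cast hc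
        gcongr

/-- The code of an active column: new values `q.1` of the sparse function `g`, and a candidate
`q.2` for `G = m g + known + parts` with a small total `L²` error. -/
theorem active_code {I Mu : Type*} [Fintype Mu] [DecidableEq Mu] (s : Finset I)
    (J : I → Type*) [∀ i, Fintype (J i)] [∀ i, DecidableEq (J i)]
    (α : ∀ i, J i → Mu → ℂ) (S V : I → ℝ) (n : I → ℕ) (τ : I → ℝ)
    (hS : ∀ i ∈ s, 0 < S i) (hV0 : ∀ i ∈ s, 0 ≤ V i)
    (hV : ∀ i ∈ s, ∀ j, ∑ μ, ‖α i j μ‖ ^ 2 ≤ V i) (hn : ∀ i ∈ s, 0 < n i)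
    (hτ0 : ∀ i ∈ s, 0 ≤ τ i) (hτ : ∀ i ∈ s, 4 * S i ^ 2 * V i / n i ≤ τ i ^ 2)
    (m : Mu → ℂ) (hm : ∀ μ, ‖m μ‖ ≤ 1)
    (known φ₀ : Mu → ℂ) (θ R : ℝ) (hθ : 0 < θ) (r : ℕ) (hr : 0 < r) :
    ∃ PP : Finset ((Mu → ℂ) × (Mu → ℂ)),
      (PP.card : ℝ) ≤
        (Real.exp 1 * (Fintype.card Mu * (2 * (⌈R / θ⌉₊ : ℝ) + 3) ^ 2 + 1 + r) / r) ^ r *
        ∏ i ∈ s, (Real.exp 1 * (4 * Fintype.card (J i) + 1 + n i) / n i) ^ n i ∧
      ∀ (g : Mu → ℂ) (a : ∀ i, J i → ℂ), (∀ i ∈ s, ∑ j, ‖a i j‖ ≤ S i) →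
        (∀ μ, ‖g μ - φ₀ μ‖ ≤ R) → (Finset.univ.filter (fun μ => g μ ≠ 0)).card ≤ r →
        ∃ q ∈ PP, (∀ μ, ‖g μ - q.1 μ‖ ≤ θ) ∧ (∀ μ, g μ = 0 → q.1 μ = 0) ∧
          ∑ μ, ‖(m μ * g μ + known μ + ∑ i ∈ s, ∑ j, a i j * α i j μ) - q.2 μ‖ ^ 2 ≤
            (√r * θ + ∑ i ∈ s, τ i) ^ 2 := by
  classical
  obtain ⟨A1, hA1, hA1'⟩ := sparse_code φ₀ θ R hθ r hr
  obtain ⟨A2, hA2, hA2'⟩ := parts_code s J α S V n τ hS hV0 hV hn hτ0 hτ
  refine ⟨(A1 ×ˢ A2).image (fun x => (x.1, fun μ => m μ * x.1 μ + known μ + x.2 μ)), ?_, ?_⟩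
  · have h1 : (((A1 ×ˢ A2).image
        (fun x => (x.1, fun μ => m μ * x.1 μ + known μ + x.2 μ))).card : ℝ) ≤
        ((A1 ×ˢ A2).card : ℝ) := by
      exact_mod_cast Finset.card_image_le
    refine h1.trans ?_
    rw [Finset.card_product]
    push_cast
    gcongr
  · intro g a ha hg hc
    obtain ⟨q, hq, hq1, hq2, hq3⟩ := hA1' g hg hc
    obtain ⟨w, hw, hw'⟩ := hA2' a ha
    refine ⟨(q, fun μ => m μ * q μ + known μ + w μ),
      Finset.mem_image.mpr ⟨(q, w), Finset.mem_product.mpr ⟨hq, hw⟩, rfl⟩, hq1, hq2, ?_⟩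
    have h1 : ∀ μ, (m μ * g μ + known μ + ∑ i ∈ s, ∑ j, a i j * α i j μ) -
        (m μ * q μ + known μ + w μ) =
        ∑ b ∈ (Finset.univ : Finset Bool), (if b then m μ * (g μ - q μ) else
          (∑ i ∈ s, ∑ j, a i j * α i j μ) - w μ) := by
      intro μ
      rw [Fintype.sum_bool]
      simp
      ring
    simp_rw [h1]
    have h2 := l2_sum_le (Finset.univ : Finset Bool)
      (fun b μ => if b then m μ * (g μ - q μ) else (∑ i ∈ s, ∑ j, a i j * α i j μ) - w μ)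
      (fun b => if b then √r * θ else ∑ i ∈ s, τ i)
      (by
        intro b _
        cases b
        · simpa using Finset.sum_nonneg hτ0
        · simp only [if_true]
          positivity)
      (by
        intro b _
        cases b
        · simpa using hw'
        · simp only [if_true]
          have h3 : (√(r : ℝ) * θ) ^ 2 = r * θ ^ 2 := by
            rw [mul_pow, Real.sq_sqrt (Nat.cast_nonneg r)]
          rw [h3]
          refine le_trans (Finset.sum_le_sum fun μ _ => ?_) hq3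
          rw [norm_mul, mul_pow]
          have h4 : ‖m μ‖ ^ 2 ≤ 1 := pow_le_one₀ (norm_nonneg _) (hm μ)
          calc ‖m μ‖ ^ 2 * ‖g μ - q μ‖ ^ 2 ≤ 1 * ‖g μ - q μ‖ ^ 2 := by gcongr
            _ = ‖g μ - q μ‖ ^ 2 := one_mul _)
    rw [Fintype.sum_bool] at h2
    simpa using h2

end Pool.Agent.H74.CM
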