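import Pool.Agent.H74.CM.Maurey

/-!
Counting the approximants of Maurey's method (multisets of atoms), and the refinement step of the
compression argument.
-/

set_option autoImplicit false

namespace Pool.Agent.H74.CM

open Finset

/-- number of multisets -/
theorem card_sym_le {K : Type*} [Fintype K] [DecidableEq K] (n : ℕ) (hn : 0 < n) :
    (Fintype.card (Sym K n) : ℝ) ≤ (Real.exp 1 * (Fintype.card K + n) / n) ^ n := by
  rw [Sym.card_sym_eq_multichoose, Nat.multichoose_eq]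
  have hn' : (0 : ℝ) < n := by exact_mod_cast hn
  set m : ℕ := Fintype.card K with hm
  have h1 : ((m + n - 1).choose n : ℝ) ≤ ((m + n - 1 : ℕ) : ℝ) ^ n / n.factorial :=
    Nat.choose_le_pow_div n (m + n - 1)
  have h2 : ((m + n - 1 : ℕ) : ℝ) ≤ m + n := by
    have : m + n - 1 ≤ m + n := Nat.sub_le _ _
    exact_mod_cast this
  have h3 : (n : ℝ) ^ n / n.factorial ≤ Real.exp n :=
    Real.pow_div_factorial_le_exp (n : ℝ) hn'.le n
  have h4 : (0 : ℝ) < n.factorial := by exact_mod_cast Nat.factorial_pos n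
  calc ((m + n - 1).choose n : ℝ) ≤ ((m + n - 1 : ℕ) : ℝ) ^ n / n.factorial := h1
    _ ≤ ((m : ℝ) + n) ^ n / n.factorial := by gcongr
    _ = (((m : ℝ) + n) / n) ^ n * ((n : ℝ) ^ n / n.factorial) := by
        rw [div_pow]
        field_simp
    _ ≤ (((m : ℝ) + n) / n) ^ n * Real.exp n := by gcongr
    _ = (Real.exp 1 * (m + n) / n) ^ n := by
        rw [← Real.exp_one_rpow, Real.rpow_natCast, ← mul_pow]
        congr 1
        ring

/-- the multiset of the values of a sequence -/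
def symOf {K : Type*} {n : ℕ} (k : Fin n → K) : Sym K n :=
  ⟨Multiset.ofList (List.ofFn k), by simp⟩

theorem sum_symOf {K : Type*} {n : ℕ} (k : Fin n → K) (f : K → ℂ) :
    ((symOf k : Multiset K).map f).sum = ∑ i, f (k i) := by
  change ((Multiset.ofList (List.ofFn k)).map f).sum = _
  rw [Multiset.map_coe, Multiset.sum_coe, List.map_ofFn, List.sum_ofFn]
  rfl

theorem mem_symOf {K : Type*} {n : ℕ} (k : Fin n → K) (x : K) :
    x ∈ (symOf k : Multiset K) ↔ ∃ i, k i = x := by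
  change x ∈ Multiset.ofList (List.ofFn k) ↔ _
  rw [Multiset.mem_coe, List.mem_ofFn]

/-- Coded Maurey, `L²` form. -/
theorem maurey_code_L2 {J Mu : Type*} [Fintype J] [DecidableEq J] [Fintype Mu] [DecidableEq Mu]
    (α : J → Mu → ℂ) (S V : ℝ) (hS0 : 0 < S) (hV0 : 0 ≤ V)
    (hV : ∀ j, ∑ μ, ‖α j μ‖ ^ 2 ≤ V) (n : ℕ) (hn : 0 < n) :
    ∃ AA : Finset (Mu → ℂ),
      (AA.card : ℝ) ≤ (Real.exp 1 * (4 * Fintype.card J + 1 + n) / n) ^ n ∧
      ∀ a : J → ℂ, ∑ j, ‖a j‖ ≤ S → ∃ g ∈ AA,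
        ∑ μ, ‖(∑ j, a j * α j μ) - g μ‖ ^ 2 ≤ 4 * S ^ 2 * V / n := by
  classical
  set G : Sym (Option (J × Fin 4)) n → Mu → ℂ := fun s μ =>
    ((2 * S / n : ℝ) : ℂ) * ((s : Multiset (Option (J × Fin 4))).map (fun k => atom α k μ)).sum
    with hG
  refine ⟨Finset.univ.image G, ?_, fun a ha => ?_⟩
  · have h1 : ((Finset.univ.image G).card : ℝ) ≤ Fintype.card (Sym (Option (J × Fin 4)) n) := by
      exact_mod_cast Finset.card_image_le.trans (by simp)
    refine h1.trans ((card_sym_le n hn).trans (le_of_eq ?_))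
    rw [Fintype.card_option, Fintype.card_prod, Fintype.card_fin]
    push_cast
    ring_nf
  · obtain ⟨k, hk⟩ := maurey_L2 α a S V hS0 ha hV0 hV n hn
    refine ⟨G (symOf k), Finset.mem_image_of_mem _ (Finset.mem_univ _), ?_⟩
    have h2 : ∀ μ, G (symOf k) μ = ((2 * S / n : ℝ) : ℂ) * ∑ i, atom α (k i) μ := by
      intro μ
      simp only [hG]
      rw [sum_symOf k (fun k => atom α k μ)]
    simp_rw [h2]
    exact hk

/-- Coded Maurey, Chernoff form. -/
theorem maurey_code_chernoff {J Mu : Type*} [Fintype J] [DecidableEq J] [Fintype Mu]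
    [DecidableEq Mu] (α : J → Mu → ℂ) (S : ℝ) (hS0 : 0 < S) (hα : ∀ j μ, ‖α j μ‖ ≤ 1)
    (t : ℝ) (ht : 0 ≤ t) (n : ℕ) (hn : 0 < n) :
    ∃ AA : Finset (Mu → ℂ),
      (AA.card : ℝ) ≤ (Real.exp 1 * (4 * Fintype.card J + 1 + n) / n) ^ n ∧
      ∀ a : J → ℂ, ∑ j, ‖a j‖ ≤ S → ∃ g ∈ AA,
        ((Finset.univ.filter (fun μ => t < ‖(∑ j, a j * α j μ) - g μ‖)).card : ℝ) ≤
          4 * Fintype.card Mu * Real.exp (-(n * (t ^ 2 / (72 * S ^ 2)))) := by
  classical
  set G : Sym (Option (J × Fin 4)) n → Mu → ℂ := fun s μ =>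
    ((2 * S / n : ℝ) : ℂ) * ((s : Multiset (Option (J × Fin 4))).map (fun k => atom α k μ)).sum
    with hG
  refine ⟨Finset.univ.image G, ?_, fun a ha => ?_⟩
  · have h1 : ((Finset.univ.image G).card : ℝ) ≤ Fintype.card (Sym (Option (J × Fin 4)) n) := by
      exact_mod_cast Finset.card_image_le.trans (by simp)
    refine h1.trans ((card_sym_le n hn).trans (le_of_eq ?_))
    rw [Fintype.card_option, Fintype.card_prod, Fintype.card_fin]
    push_cast
    ring_nf
  · obtain ⟨k, hk⟩ := maurey_chernoff α a S hS0 ha hα t ht n hn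
    refine ⟨G (symOf k), Finset.mem_image_of_mem _ (Finset.mem_univ _), ?_⟩
    have h2 : ∀ μ, G (symOf k) μ = ((2 * S / n : ℝ) : ℂ) * ∑ i, atom α (k i) μ := by
      intro μ
      simp only [hG]
      rw [sum_symOf k (fun k => atom α k μ)]
    refine hk _ fun μ hμ => ?_
    have h3 := (Finset.mem_filter.mp hμ).2
    rwa [h2] at h3

/-- rounding a complex number to the lattice of mesh `θ` -/
noncomputable def rnd (θ : ℝ) (w : ℂ) : ℤ × ℤ := (round (w.re / θ), round (w.im / θ))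

/-- the lattice point -/
noncomputable def lat (θ : ℝ) (z : ℤ × ℤ) : ℂ := ⟨θ * z.1, θ * z.2⟩

theorem norm_sub_lat_rnd {θ : ℝ} (hθ : 0 < θ) (w : ℂ) : ‖w - lat θ (rnd θ w)‖ ≤ θ := by
  have key : ∀ x : ℝ, |x - θ * (round (x / θ) : ℤ)| ≤ θ / 2 := by
    intro x
    have h1 := abs_sub_round (x / θ)
    have h2 : x - θ * (round (x / θ) : ℤ) = θ * (x / θ - (round (x / θ) : ℤ)) := by
      field_simp
    rw [h2, abs_mul, abs_of_pos hθ]
    nlinarith
  have h3 := Complex.norm_le_abs_re_add_abs_im (w - lat θ (rnd θ w))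
  have h4 := key w.re
  have h5 := key w.im
  simp only [Complex.sub_re, Complex.sub_im, lat, rnd] at h3 ⊢
  linarith

theorem rnd_bound {θ R : ℝ} (hθ : 0 < θ) (w : ℂ) (hw : ‖w‖ ≤ R) :
    |(rnd θ w).1| ≤ ⌈R / θ⌉ + 1 ∧ |(rnd θ w).2| ≤ ⌈R / θ⌉ + 1 := by
  have key : ∀ x : ℝ, |x| ≤ R → |round (x / θ)| ≤ ⌈R / θ⌉ + 1 := by
    intro x hx
    have h1 := abs_le.mp (abs_sub_round (x / θ))
    have h2 : |x / θ| ≤ R / θ := by
      rw [abs_div, abs_of_pos hθ]
      gcongr
    have h3 := abs_le.mp h2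
    have h4 := Int.le_ceil (R / θ)
    have h5 : |((round (x / θ) : ℤ) : ℝ)| ≤ (⌈R / θ⌉ : ℝ) + 1 := by
      rw [abs_le]
      constructor <;> linarith
    exact_mod_cast h5
  exact ⟨key _ ((Complex.abs_re_le_norm w).trans hw), key _ ((Complex.abs_im_le_norm w).trans hw)⟩

/-- The refinement step. From a prediction `p` and old values `φ₀`: a finite set of candidates of
controlled size such that, whenever the true values `g` are within `R` of `φ₀` and within `θ` of
`p` outside a set of at most `r` points, some candidate is within `θ` of `g` everywhere. -/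
theorem refine_code {Mu : Type*} [Fintype Mu] [DecidableEq Mu] (p φ₀ : Mu → ℂ) (θ R : ℝ)
    (hθ : 0 < θ) (r : ℕ) (hr : 0 < r) :
    ∃ PP : Finset (Mu → ℂ),
      (PP.card : ℝ) ≤
        (Real.exp 1 * (Fintype.card Mu * (2 * (⌈R / θ⌉₊ : ℝ) + 3) ^ 2 + 1 + r) / r) ^ r ∧
      ∀ g : Mu → ℂ, (∀ μ, ‖g μ - φ₀ μ‖ ≤ R) →
        (Finset.univ.filter (fun μ => θ < ‖g μ - p μ‖)).card ≤ r →
        ∃ q ∈ PP, ∀ μ, ‖g μ - q μ‖ ≤ θ := by
  classical
  set B : ℕ := ⌈R / θ⌉₊ + 1 with hB
  set box : Finset (ℤ × ℤ) := Finset.Icc (-(B : ℤ)) B ×ˢ Finset.Icc (-(B : ℤ)) B with hbox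
  set D : Sym (Option (Mu × box)) r → Mu → ℂ := fun s μ =>
    if h : ∃ z : box, (some (μ, z) : Option (Mu × box)) ∈ (s : Multiset (Option (Mu × box))) then
      φ₀ μ + lat θ h.choose.1 else p μ
    with hD
  refine ⟨Finset.univ.image D, ?_, fun g hg hE => ?_⟩
  · have h1 : ((Finset.univ.image D).card : ℝ) ≤ Fintype.card (Sym (Option (Mu × box)) r) := by
      exact_mod_cast Finset.card_image_le.trans (by simp)
    refine h1.trans ((card_sym_le r hr).trans (le_of_eq ?_))
    have h2 : (Fintype.card (Option (Mu × box)) : ℝ) =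
        Fintype.card Mu * (2 * (⌈R / θ⌉₊ : ℝ) + 3) ^ 2 + 1 := by
      rw [Fintype.card_option, Fintype.card_prod, Fintype.card_coe, hbox,
        Finset.card_product, Int.card_Icc, hB]
      have h3 : ((((⌈R / θ⌉₊ + 1 : ℕ) : ℤ) + 1 - -((⌈R / θ⌉₊ + 1 : ℕ) : ℤ)).toNat : ℕ) =
          2 * ⌈R / θ⌉₊ + 3 := by omega
      rw [h3]
      push_cast
      ring
    rw [h2]
  · set E : Finset Mu := Finset.univ.filter (fun μ => θ < ‖g μ - p μ‖) with hEdef
    -- enumerate E
    obtain ⟨f, hf⟩ : ∃ f : Fin r → Option Mu, ∀ μ, (∃ i, f i = some μ) ↔ μ ∈ E := by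
      have hcard : Fintype.card E ≤ Fintype.card (Fin r) := by
        rw [Fintype.card_coe, Fintype.card_fin]
        exact hE
      obtain ⟨emb⟩ := Function.Embedding.nonempty_of_card_le hcard
      refine ⟨fun i => if h : ∃ x : E, emb x = i then some h.choose.1 else none, fun μ => ?_⟩
      constructor
      · rintro ⟨i, hi⟩
        beta_reduce at hi
        by_cases h : ∃ x : E, emb x = i
        · rw [dif_pos h] at hi
          have := h.choose.2
          rw [Option.some.injEq] at hi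
          rw [← hi]
          exact this
        · rw [dif_neg h] at hi
          exact absurd hi (by simp)
      · intro hμ
        refine ⟨emb ⟨μ, hμ⟩, ?_⟩
        have h : ∃ x : E, emb x = emb ⟨μ, hμ⟩ := ⟨_, rfl⟩
        beta_reduce
        rw [dif_pos h]
        have h1 := emb.injective h.choose_spec
        rw [h1]
    have hbx : ∀ μ, rnd θ (g μ - φ₀ μ) ∈ box := by
      intro μ
      obtain ⟨h1, h2⟩ := rnd_bound hθ (g μ - φ₀ μ) (hg μ)
      have hR0 : 0 ≤ R := (norm_nonneg _).trans (hg μ)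
      have h3 : (⌈R / θ⌉ : ℤ) = (⌈R / θ⌉₊ : ℤ) := by
        rw [Int.natCast_ceil_eq_ceil (by positivity)]
      rw [h3] at h1 h2
      have h4 := abs_le.mp h1
      have h5 := abs_le.mp h2
      rw [hbox, Finset.mem_product, Finset.mem_Icc, Finset.mem_Icc, hB]
      push_cast
      exact ⟨⟨by linarith [h4.1], by linarith [h4.2]⟩, ⟨by linarith [h5.1], by linarith [h5.2]⟩⟩
    set k : Fin r → Option (Mu × box) := fun i => (f i).map (fun μ => (μ, ⟨rnd θ (g μ - φ₀ μ), hbx μ⟩)) with hk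
    refine ⟨D (symOf k), Finset.mem_image_of_mem _ (Finset.mem_univ _), fun μ => ?_⟩
    have hval : ∀ z : box, (some (μ, z) : Option (Mu × box)) ∈
        (symOf k : Multiset (Option (Mu × box))) →
        z = ⟨rnd θ (g μ - φ₀ μ), hbx μ⟩ := by
      intro z hz
      rw [mem_symOf] at hz
      obtain ⟨i, hi⟩ := hz
      simp only [hk] at hi
      rw [Option.map_eq_some_iff] at hi
      obtain ⟨ν, hν1, hν2⟩ := hi
      rw [Prod.mk.injEq] at hν2
      obtain ⟨rfl, h2⟩ := hν2
      exact h2.symm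
    by_cases hμ : μ ∈ E
    · have hex : ∃ z : box, (some (μ, z) : Option (Mu × box)) ∈
          (symOf k : Multiset (Option (Mu × box))) := by
        obtain ⟨i, hi⟩ := (hf μ).mpr hμ
        refine ⟨⟨rnd θ (g μ - φ₀ μ), hbx μ⟩, ?_⟩
        rw [mem_symOf]
        refine ⟨i, ?_⟩
        simp only [hk]
        rw [hi]
        rfl
      simp only [hD]
      rw [dif_pos hex, hval _ hex.choose_spec]
      have := norm_sub_lat_rnd hθ (g μ - φ₀ μ)
      rwa [← sub_sub]
    · have hex : ¬ ∃ z : box, (some (μ, z) : Option (Mu × box)) ∈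
          (symOf k : Multiset (Option (Mu × box))) := by
        rintro ⟨z, hz⟩
        rw [mem_symOf] at hz
        obtain ⟨i, hi⟩ := hz
        simp only [hk] at hi
        rw [Option.map_eq_some_iff] at hi
        obtain ⟨ν, hν1, hν2⟩ := hi
        rw [Prod.mk.injEq] at hν2
        obtain ⟨rfl, -⟩ := hν2
        exact hμ ((hf _).mp ⟨i, hν1⟩)
      simp only [hD]
      rw [dif_neg hex]
      rw [hEdef, Finset.mem_filter] at hμ
      push Not at hμ
      exact hμ (Finset.mem_univ _)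

/-- thresholding keeps the support and costs a factor `2` in the error -/
theorem threshold {Mu : Type*} (g q : Mu → ℂ) (θ : ℝ) (hθ : 0 ≤ θ)
    (h : ∀ μ, ‖g μ - q μ‖ ≤ θ) :
    (∀ μ, g μ = 0 → (if θ < ‖q μ‖ then q μ else 0) = 0) ∧
      ∀ μ, ‖g μ - (if θ < ‖q μ‖ then q μ else 0)‖ ≤ 2 * θ := by
  constructor
  · intro μ hμ
    have h1 := h μ
    rw [hμ, zero_sub, norm_neg] at h1
    rw [if_neg (not_lt.mpr h1)]
  · intro μ
    split_ifs with h1
    · linarith [h μ]
    · push Not at h1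
      rw [sub_zero]
      have h2 : ‖g μ‖ ≤ ‖g μ - q μ‖ + ‖q μ‖ := by
        have := norm_add_le (g μ - q μ) (q μ)
        rwa [sub_add_cancel] at this
      linarith [h μ]

end Pool.Agent.H74.CM
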