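import Pool.Agent.H74.CM.Code

/-!
The code of an inactive column in abstract form: a function that is a known function plus an
`L¹`-part (coded by the Chernoff form) plus finitely many parts that are small combinations of
atoms (coded by the `L²` form), up to an error `θ` at every point.
-/

set_option autoImplicit false

namespace Pool.Agent.H74.CM

open Finset

/-- Minkowski for finitely many functions on a finite set -/
theorem l2_sum_le {I Mu : Type*} [Fintype Mu] (s : Finset I) (h : I → Mu → ℂ) (τ : I → ℝ)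
    (hτ : ∀ i ∈ s, 0 ≤ τ i) (hh : ∀ i ∈ s, ∑ μ, ‖h i μ‖ ^ 2 ≤ τ i ^ 2) :
    ∑ μ, ‖∑ i ∈ s, h i μ‖ ^ 2 ≤ (∑ i ∈ s, τ i) ^ 2 := by
  classical
  -- via the Euclidean norm
  have hnorm : ∀ f : Mu → ℂ, ‖(WithLp.toLp 2 f : EuclideanSpace ℂ Mu)‖ ^ 2 = ∑ μ, ‖f μ‖ ^ 2 := by
    intro f
    rw [EuclideanSpace.norm_sq_eq]
  have h1 : ∀ i ∈ s, ‖(WithLp.toLp 2 (h i) : EuclideanSpace ℂ Mu)‖ ≤ τ i := by
    intro i hi
    refine abs_le_of_sq_le_sq' ?_ (hτ i hi) |>.2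
    rw [hnorm]
    exact hh i hi
  have h2 : (WithLp.toLp 2 (fun μ => ∑ i ∈ s, h i μ) : EuclideanSpace ℂ Mu) =
      ∑ i ∈ s, (WithLp.toLp 2 (h i) : EuclideanSpace ℂ Mu) := by
    ext μ
    simp
  have h3 : ‖(WithLp.toLp 2 (fun μ => ∑ i ∈ s, h i μ) : EuclideanSpace ℂ Mu)‖ ≤
      ∑ i ∈ s, τ i := by
    rw [h2]
    exact (norm_sum_le _ _).trans (Finset.sum_le_sum h1)
  rw [← hnorm]
  exact pow_le_pow_left₀ (norm_nonneg _) h3 2

/-- Markov for squares -/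
theorem card_large_le {Mu : Type*} [Fintype Mu] (f : Mu → ℂ) (t E : ℝ) (ht : 0 < t)
    (hf : ∑ μ, ‖f μ‖ ^ 2 ≤ E) :
    ((Finset.univ.filter (fun μ => t < ‖f μ‖)).card : ℝ) ≤ E / t ^ 2 := by
  classical
  rw [le_div_iff₀ (by positivity)]
  calc ((Finset.univ.filter (fun μ => t < ‖f μ‖)).card : ℝ) * t ^ 2
      = ∑ μ ∈ Finset.univ.filter (fun μ => t < ‖f μ‖), t ^ 2 := by
        rw [Finset.sum_const, nsmul_eq_mul]
    _ ≤ ∑ μ ∈ Finset.univ.filter (fun μ => t < ‖f μ‖), ‖f μ‖ ^ 2 := by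
        refine Finset.sum_le_sum fun μ hμ => ?_
        exact pow_le_pow_left₀ ht.le (Finset.mem_filter.mp hμ).2.le 2
    _ ≤ ∑ μ, ‖f μ‖ ^ 2 :=
        Finset.sum_le_sum_of_subset_of_nonneg (Finset.filter_subset _ _)
          (fun _ _ _ => by positivity)
    _ ≤ E := hf

/-- Finitely many parts, `L²` version: a finite set of candidates for the sum of the parts. -/
theorem parts_code {I Mu : Type*} [Fintype Mu] [DecidableEq Mu] (s : Finset I)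
    (J : I → Type*) [∀ i, Fintype (J i)] [∀ i, DecidableEq (J i)]
    (α : ∀ i, J i → Mu → ℂ) (S V : I → ℝ) (n : I → ℕ) (τ : I → ℝ)
    (hS : ∀ i ∈ s, 0 < S i) (hV0 : ∀ i ∈ s, 0 ≤ V i)
    (hV : ∀ i ∈ s, ∀ j, ∑ μ, ‖α i j μ‖ ^ 2 ≤ V i) (hn : ∀ i ∈ s, 0 < n i)
    (hτ0 : ∀ i ∈ s, 0 ≤ τ i) (hτ : ∀ i ∈ s, 4 * S i ^ 2 * V i / n i ≤ τ i ^ 2) :
    ∃ AA : Finset (Mu → ℂ),
      (AA.card : ℝ) ≤
        ∏ i ∈ s, (Real.exp 1 * (4 * Fintype.card (J i) + 1 + n i) / n i) ^ n i ∧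
      ∀ a : ∀ i, J i → ℂ, (∀ i ∈ s, ∑ j, ‖a i j‖ ≤ S i) → ∃ g ∈ AA,
        ∑ μ, ‖(∑ i ∈ s, ∑ j, a i j * α i j μ) - g μ‖ ^ 2 ≤ (∑ i ∈ s, τ i) ^ 2 := by
  classical
  have h1 : ∀ i, ∃ AA : Finset (Mu → ℂ), i ∈ s →
      ((AA.card : ℝ) ≤ (Real.exp 1 * (4 * Fintype.card (J i) + 1 + n i) / n i) ^ n i ∧
      ∀ a : J i → ℂ, ∑ j, ‖a j‖ ≤ S i → ∃ g ∈ AA,
        ∑ μ, ‖(∑ j, a j * α i j μ) - g μ‖ ^ 2 ≤ τ i ^ 2) := by
    intro i
    by_cases hi : i ∈ s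
    · obtain ⟨AA, hA, hB⟩ := maurey_code_L2 (α i) (S i) (V i) (hS i hi) (hV0 i hi) (hV i hi)
        (n i) (hn i hi)
      refine ⟨AA, fun _ => ⟨hA, fun a ha => ?_⟩⟩
      obtain ⟨g, hg, hg2⟩ := hB a ha
      exact ⟨g, hg, hg2.trans (hτ i hi)⟩
    · exact ⟨∅, fun h => absurd h hi⟩
  choose A hA using h1
  -- sums of choices
  set F : (∀ i ∈ s, Mu → ℂ) → Mu → ℂ := fun c μ => ∑ i ∈ s.attach, c i.1 i.2 μ with hF
  refine ⟨(s.pi (fun i => A i)).image F, ?_, fun a ha => ?_⟩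
  · calc (((s.pi (fun i => A i)).image F).card : ℝ) ≤ ((s.pi (fun i => A i)).card : ℝ) := by
          exact_mod_cast Finset.card_image_le
      _ = ∏ i ∈ s, ((A i).card : ℝ) := by
          rw [Finset.card_pi]
          push_cast
          rfl
      _ ≤ _ := Finset.prod_le_prod (fun _ _ => Nat.cast_nonneg _) (fun i hi => (hA i hi).1)
  · have h2 : ∀ i ∈ s, ∃ g ∈ A i, ∑ μ, ‖(∑ j, a i j * α i j μ) - g μ‖ ^ 2 ≤ τ i ^ 2 :=
      fun i hi => (hA i hi).2 (a i) (ha i hi)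
    choose c hc1 hc2 using h2
    refine ⟨F c, Finset.mem_image_of_mem _ (Finset.mem_pi.mpr hc1), ?_⟩
    have h3 : ∀ μ, (∑ i ∈ s, ∑ j, a i j * α i j μ) - F c μ =
        ∑ i ∈ s.attach, ((∑ j, a i.1 j * α i.1 j μ) - c i.1 i.2 μ) := by
      intro μ
      rw [Finset.sum_sub_distrib, ← Finset.sum_attach s]
    simp_rw [h3]
    have h4 := l2_sum_le s.attach (fun i μ => (∑ j, a i.1 j * α i.1 j μ) - c i.1 i.2 μ)
      (fun i => τ i.1) (fun i _ => hτ0 i.1 i.2) (fun i _ => hc2 i.1 i.2)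
    rw [Finset.sum_attach s (fun i => τ i)] at h4
    exact h4

/-- The code of an inactive column. -/
theorem column_code {I Mu Y : Type*} [Fintype Mu] [DecidableEq Mu] [Fintype Y] [DecidableEq Y]
    (s : Finset I)
    (J : I → Type*) [∀ i, Fintype (J i)] [∀ i, DecidableEq (J i)]
    (α : ∀ i, J i → Mu → ℂ) (S V : I → ℝ) (n : I → ℕ) (τ : I → ℝ)
    (hS : ∀ i ∈ s, 0 < S i) (hV0 : ∀ i ∈ s, 0 ≤ V i)
    (hV : ∀ i ∈ s, ∀ j, ∑ μ, ‖α i j μ‖ ^ 2 ≤ V i) (hn : ∀ i ∈ s, 0 < n i)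
    (hτ0 : ∀ i ∈ s, 0 ≤ τ i) (hτ : ∀ i ∈ s, 4 * S i ^ 2 * V i / n i ≤ τ i ^ 2)
    (β : Y → Mu → ℂ) (hβ : ∀ y μ, ‖β y μ‖ ≤ 1) (B : ℝ) (hB : 0 < B) (n₀ : ℕ) (hn₀ : 0 < n₀)
    (known φ₀ : Mu → ℂ) (θ R : ℝ) (hθ : 0 < θ) (r : ℕ) (hr : 0 < r)
    (hr1 : 4 * Fintype.card Mu * Real.exp (-(n₀ * ((θ / 2) ^ 2 / (72 * B ^ 2)))) ≤ r / 2)
    (hr2 : (∑ i ∈ s, τ i) ^ 2 / (θ / 2) ^ 2 ≤ r / 2) :
    ∃ PP : Finset (Mu → ℂ),
      (PP.card : ℝ) ≤
        (Real.exp 1 * (4 * Fintype.card Y + 1 + n₀) / n₀) ^ n₀ *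
        (∏ i ∈ s, (Real.exp 1 * (4 * Fintype.card (J i) + 1 + n i) / n i) ^ n i) *
        (Real.exp 1 * (Fintype.card Mu * (2 * (⌈R / θ⌉₊ : ℝ) + 3) ^ 2 + 1 + r) / r) ^ r ∧
      ∀ (g : Mu → ℂ) (e : Y → ℂ) (a : ∀ i, J i → ℂ), ∑ y, ‖e y‖ ≤ B →
        (∀ i ∈ s, ∑ j, ‖a i j‖ ≤ S i) → (∀ μ, ‖g μ - φ₀ μ‖ ≤ R) →
        (∀ μ, g μ = known μ + ∑ y, e y * β y μ + ∑ i ∈ s, ∑ j, a i j * α i j μ) →
        ∃ q ∈ PP, ∀ μ, ‖g μ - q μ‖ ≤ θ := by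
  classical
  obtain ⟨A1, hA1, hA1'⟩ := maurey_code_chernoff β B hB hβ (θ / 2) (by positivity) n₀ hn₀
  obtain ⟨A2, hA2, hA2'⟩ := parts_code s J α S V n τ hS hV0 hV hn hτ0 hτ
  have href := fun p : Mu → ℂ => refine_code p φ₀ θ R hθ r hr
  choose P hP hP' using href
  refine ⟨(A1 ×ˢ A2).biUnion (fun x => P (fun μ => known μ + x.1 μ + x.2 μ)), ?_, ?_⟩
  · have h1 : (((A1 ×ˢ A2).biUnion (fun x => P (fun μ => known μ + x.1 μ + x.2 μ))).card : ℝ) ≤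
        ∑ x ∈ A1 ×ˢ A2, ((P (fun μ => known μ + x.1 μ + x.2 μ)).card : ℝ) := by
      exact_mod_cast Finset.card_biUnion_le
    refine h1.trans ((Finset.sum_le_sum fun x _ => hP _).trans ?_)
    rw [Finset.sum_const, nsmul_eq_mul, Finset.card_product]
    push_cast
    gcongr
  · intro g e a he ha hg0 hg
    obtain ⟨g1, hg1, hg1'⟩ := hA1' e he
    obtain ⟨g2, hg2, hg2'⟩ := hA2' a ha
    have hcard : (Finset.univ.filter
        (fun μ => θ < ‖g μ - (known μ + g1 μ + g2 μ)‖)).card ≤ r := by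
      set E1 := Finset.univ.filter (fun μ => θ / 2 < ‖(∑ y, e y * β y μ) - g1 μ‖) with hE1
      set E2 := Finset.univ.filter
        (fun μ => θ / 2 < ‖(∑ i ∈ s, ∑ j, a i j * α i j μ) - g2 μ‖) with hE2
      have hsub : Finset.univ.filter (fun μ => θ < ‖g μ - (known μ + g1 μ + g2 μ)‖) ⊆
          E1 ∪ E2 := by
        intro μ hμ
        rw [Finset.mem_filter] at hμ
        by_contra hcon
        rw [Finset.mem_union, not_or, hE1, hE2, Finset.mem_filter, Finset.mem_filter] at hcon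
        push Not at hcon
        have h1 := hcon.1 (Finset.mem_univ _)
        have h2 := hcon.2 (Finset.mem_univ _)
        have h3 : g μ - (known μ + g1 μ + g2 μ) =
            ((∑ y, e y * β y μ) - g1 μ) + ((∑ i ∈ s, ∑ j, a i j * α i j μ) - g2 μ) := by
          rw [hg μ]
          ring
        have h4 := hμ.2
        rw [h3] at h4
        have h5 := norm_add_le ((∑ y, e y * β y μ) - g1 μ)
          ((∑ i ∈ s, ∑ j, a i j * α i j μ) - g2 μ)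
        linarith
      have hc1 : (E1.card : ℝ) ≤ r / 2 := hg1'.trans hr1
      have hc2 : (E2.card : ℝ) ≤ r / 2 :=
        (card_large_le _ _ _ (by positivity) hg2').trans hr2
      have hc3 : ((Finset.univ.filter
          (fun μ => θ < ‖g μ - (known μ + g1 μ + g2 μ)‖)).card : ℝ) ≤ r := by
        calc _ ≤ ((E1 ∪ E2).card : ℝ) := by exact_mod_cast Finset.card_le_card hsub
          _ ≤ E1.card + E2.card := by exact_mod_cast Finset.card_union_le _ _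
          _ ≤ r := by linarith
      exact_mod_cast hc3
    obtain ⟨q, hq, hq'⟩ := hP' (fun μ => known μ + g1 μ + g2 μ) g hg0 hcard
    exact ⟨q, Finset.mem_biUnion.mpr ⟨(g1, g2), Finset.mem_product.mpr ⟨hg1, hg2⟩, hq⟩, hq'⟩

end Pool.Agent.H74.CM
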