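import Mathlib

/-!
Finite duality lemma: a linear functional which is bounded on the set cut out by finitely many
two-sided constraints is a combination of the constraints, with controlled coefficients.
-/

set_option autoImplicit false

namespace Pool.Agent.H74.CM

open Finset

theorem finite_dual {E : Type*} [AddCommGroup E] [Module ℝ E] {I : Type*} [Fintype I]
    (L : I → E →ₗ[ℝ] ℝ) (c : I → ℝ) (hc : ∀ i, 0 < c i) (l : E →ₗ[ℝ] ℝ) (B : ℝ)
    (h : ∀ x : E, (∀ i, |L i x| ≤ c i) → l x ≤ B) :
    ∃ a : I → ℝ, (∀ x : E, l x = ∑ i, a i * L i x) ∧ ∑ i, |a i| * c i ≤ B := by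
  classical
  have hB : 0 ≤ B := by
    have := h 0 (fun i => by simpa using (hc i).le)
    simpa using this
  -- the map to the sup-normed space
  set Φ : E →ₗ[ℝ] (I → ℝ) := LinearMap.pi (fun i => (c i)⁻¹ • L i) with hΦ
  have hΦi : ∀ x i, Φ x i = (c i)⁻¹ * L i x := by
    intro x i
    simp [hΦ]
  have hbound : ∀ x : E, ∀ r : ℝ, 0 < r → (∀ i, |Φ x i| ≤ r) → l x ≤ B * r := by
    intro x r hr hx
    have h1 := h (r⁻¹ • x) (fun i => by
      have h2 := hx i
      rw [hΦi, abs_mul, abs_inv, abs_of_pos (hc i), inv_mul_le_iff₀ (hc i)] at h2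
      rw [map_smul, smul_eq_mul, abs_mul, abs_inv, abs_of_pos hr, inv_mul_le_iff₀ hr]
      linarith)
    rw [map_smul, smul_eq_mul, inv_mul_le_iff₀ hr] at h1
    linarith
  have hker : LinearMap.ker Φ ≤ LinearMap.ker l := by
    intro x hx
    rw [LinearMap.mem_ker] at hx ⊢
    have h1 : ∀ t : ℝ, t * l x ≤ 0 := by
      intro t
      by_contra hcon
      push Not at hcon
      have h2 : ∀ s : ℝ, 0 < s → l ((s * t) • x) ≤ B * 1 := by
        intro s _
        refine hbound _ 1 one_pos (fun i => ?_)
        rw [map_smul, hx]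
        simp
      have h3 := h2 ((B + 1) / (t * l x)) (by positivity)
      rw [map_smul, smul_eq_mul, mul_one] at h3
      have h4 : (B + 1) / (t * l x) * t * l x = B + 1 := by
        rw [mul_assoc, div_mul_cancel₀ _ hcon.ne']
      linarith
    have h5 := h1 1
    have h6 := h1 (-1)
    linarith
  -- the functional on the range
  obtain ⟨f, hf⟩ : ∃ f : LinearMap.range Φ →ₗ[ℝ] ℝ, ∀ x, f ⟨Φ x, LinearMap.mem_range_self Φ x⟩ =
      l x := by
    refine ⟨((LinearMap.ker Φ).liftQ l hker).comp
      (Φ.quotKerEquivRange.symm : LinearMap.range Φ →ₗ[ℝ] _), fun x => ?_⟩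
    have h1 : Φ.quotKerEquivRange.symm ⟨Φ x, LinearMap.mem_range_self Φ x⟩ =
        Submodule.Quotient.mk x := by
      rw [LinearEquiv.symm_apply_eq]
      rfl
    simp only [LinearMap.comp_apply, LinearEquiv.coe_coe]
    rw [h1]
    simp
  have hfb : ∀ w : LinearMap.range Φ, ‖f w‖ ≤ B * ‖w‖ := by
    have key : ∀ x : E, l x ≤ B * ‖Φ x‖ := by
      intro x
      by_contra hcon
      push Not at hcon
      -- choose r slightly larger than the norm
      rcases hB.eq_or_lt with hB0 | hBpos
      · have h1 := hbound x (‖Φ x‖ + 1) (by positivity) (fun i => by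
          have := norm_le_pi_norm (Φ x) i
          rw [Real.norm_eq_abs] at this
          linarith)
        rw [← hB0] at h1 hcon
        linarith
      · set r : ℝ := ‖Φ x‖ + (l x - B * ‖Φ x‖) / (2 * B) with hr
        have hpos : 0 < (l x - B * ‖Φ x‖) / (2 * B) := by
          apply div_pos <;> linarith
        have hr0 : 0 < r := by
          have := norm_nonneg (Φ x)
          linarith
        have h1 := hbound x r hr0 (fun i => by
          have := norm_le_pi_norm (Φ x) i
          rw [Real.norm_eq_abs] at this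
          linarith)
        have h2 : B * r = B * ‖Φ x‖ + (l x - B * ‖Φ x‖) / 2 := by
          rw [hr]
          field_simp
        linarith
    rintro ⟨w, x, rfl⟩
    have h1 : f ⟨Φ x, LinearMap.mem_range_self Φ x⟩ = l x := hf x
    change ‖f ⟨Φ x, LinearMap.mem_range_self Φ x⟩‖ ≤ B * ‖Φ x‖
    rw [h1, Real.norm_eq_abs, abs_le]
    constructor
    · have := key (-x)
      rw [map_neg, map_neg, norm_neg] at this
      linarith
    · exact key x
  set F0 : StrongDual ℝ (LinearMap.range Φ) := LinearMap.mkContinuous f B hfb with hF0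
  obtain ⟨F, hF, hFn⟩ := exists_extension_norm_eq (LinearMap.range Φ) F0
  have hFB : ‖F‖ ≤ B := by
    rw [hFn]
    exact LinearMap.mkContinuous_norm_le _ hB _
  refine ⟨fun i => F (Pi.single i 1) * (c i)⁻¹, fun x => ?_, ?_⟩
  · have h1 : l x = F (Φ x) := by
      have := hF ⟨Φ x, LinearMap.mem_range_self Φ x⟩
      rw [this, hF0]
      simp [hf]
    rw [h1]
    have h2 : Φ x = ∑ i, (Φ x i) • (Pi.single i (1 : ℝ) : I → ℝ) := by
      ext j
      simp [Finset.sum_apply, Pi.single_apply]
    rw [h2, map_sum]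
    refine Finset.sum_congr rfl fun i _ => ?_
    rw [map_smul, smul_eq_mul, hΦi]
    ring
  · have h1 : ∑ i, |F (Pi.single i 1)| = F (fun i => SignType.sign (F (Pi.single i 1))) := by
      have h2 : (fun i => (SignType.sign (F (Pi.single i 1)) : ℝ)) =
          ∑ i, (SignType.sign (F (Pi.single i 1)) : ℝ) • (Pi.single i (1 : ℝ) : I → ℝ) := by
        ext j
        simp [Finset.sum_apply, Pi.single_apply]
      rw [h2, map_sum]
      refine Finset.sum_congr rfl fun i _ => ?_
      rw [map_smul, smul_eq_mul, sign_mul_self]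
    have h3 : ∑ i, |F (Pi.single i 1) * (c i)⁻¹| * c i = ∑ i, |F (Pi.single i 1)| := by
      refine Finset.sum_congr rfl fun i _ => ?_
      rw [abs_mul, abs_inv, abs_of_pos (hc i), mul_assoc, inv_mul_cancel₀ (hc i).ne', mul_one]
    rw [h3, h1]
    have h4 : ‖(fun i => (SignType.sign (F (Pi.single i 1)) : ℝ))‖ ≤ 1 := by
      rw [pi_norm_le_iff_of_nonneg zero_le_one]
      intro i
      rw [Real.norm_eq_abs]
      rcases lt_trichotomy (F (Pi.single i 1)) 0 with h | h | h
      · rw [sign_neg h]; simp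
      · rw [h]; simp
      · rw [sign_pos h]; simp
    calc F (fun i => (SignType.sign (F (Pi.single i 1)) : ℝ))
        ≤ ‖F (fun i => (SignType.sign (F (Pi.single i 1)) : ℝ))‖ := le_abs_self _
      _ ≤ ‖F‖ * ‖(fun i => (SignType.sign (F (Pi.single i 1)) : ℝ))‖ := F.le_opNorm _
      _ ≤ B * 1 := mul_le_mul hFB h4 (norm_nonneg _) hB
      _ = B := mul_one B

end Pool.Agent.H74.CM
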