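import Mathlib

/-!
Maurey's empirical method, derandomised: the mean of a finite family of atoms is approximated by
the average of `n` atoms, (a) in `L²` over the coordinates, (b) in all but few coordinates
(Chernoff form).
-/

set_option autoImplicit false

namespace Pool.Agent.H74.CM

open Finset

/-- a weighted average is attained or beaten -/
theorem exists_le_avg {K : Type*} [Fintype K] (p : K → ℝ) (hp : ∀ k, 0 ≤ p k)
    (hp1 : ∑ k, p k = 1) (F : K → ℝ) (b : ℝ) (h : ∑ k, p k * F k ≤ b) : ∃ k, F k ≤ b := by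
  by_contra hcon
  push Not at hcon
  obtain ⟨k0, hk0⟩ : ∃ k, 0 < p k := by
    by_contra hc
    push Not at hc
    have : ∑ k, p k ≤ 0 := Finset.sum_nonpos fun k _ => hc k
    linarith
  have h1 : ∑ k, p k * b < ∑ k, p k * F k := by
    refine Finset.sum_lt_sum (fun k _ => mul_le_mul_of_nonneg_left (hcon k).le (hp k))
      ⟨k0, Finset.mem_univ _, mul_lt_mul_of_pos_left (hcon k0) hk0⟩
  rw [← Finset.sum_mul, hp1, one_mul] at h1
  linarith

theorem normSq_expand (x y : ℂ) : ‖x + y‖ ^ 2 = ‖x‖ ^ 2 + 2 * (x * (starRingEnd ℂ) y).re +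
    ‖y‖ ^ 2 := by
  rw [← Complex.normSq_eq_norm_sq, ← Complex.normSq_eq_norm_sq, ← Complex.normSq_eq_norm_sq,
    Complex.normSq_add]
  ring

/-- `L²` version with a probability vector -/
theorem maurey_L2_prob {K Mu : Type*} [Fintype K] [Fintype Mu] (p : K → ℝ) (hp : ∀ k, 0 ≤ p k)
    (hp1 : ∑ k, p k = 1) (β : K → Mu → ℂ) (V : ℝ) (hV : ∀ k, ∑ μ, ‖β k μ‖ ^ 2 ≤ V) (n : ℕ) :
    ∃ k : Fin n → K, ∑ μ, ‖∑ i, ((∑ j, (p j : ℂ) * β j μ) - β (k i) μ)‖ ^ 2 ≤ n * V := by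
  induction n with
  | zero => exact ⟨fun i => i.elim0, by simp⟩
  | succ n ih =>
    obtain ⟨k, hk⟩ := ih
    set f : Mu → ℂ := fun μ => ∑ j, (p j : ℂ) * β j μ with hf
    set R : Mu → ℂ := fun μ => ∑ i : Fin n, (f μ - β (k i) μ) with hR
    have havg : ∑ j, p j * (∑ μ, ‖R μ + (f μ - β j μ)‖ ^ 2) ≤ n * V + V := by
      have h1 : ∀ j, ∑ μ, ‖R μ + (f μ - β j μ)‖ ^ 2 =
          (∑ μ, ‖R μ + f μ‖ ^ 2) - 2 * (∑ μ, ((R μ + f μ) * (starRingEnd ℂ) (β j μ)).re) +
            ∑ μ, ‖β j μ‖ ^ 2 := by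
        intro j
        rw [Finset.mul_sum, ← Finset.sum_sub_distrib, ← Finset.sum_add_distrib]
        refine Finset.sum_congr rfl fun μ _ => ?_
        have h2 := normSq_expand (R μ + f μ) (-(β j μ))
        rw [map_neg, mul_neg, Complex.neg_re, norm_neg] at h2
        rw [← add_sub_assoc, sub_eq_add_neg, h2]
        ring
      have h3 : ∑ j, p j * (∑ μ, ((R μ + f μ) * (starRingEnd ℂ) (β j μ)).re) =
          ∑ μ, ((R μ + f μ) * (starRingEnd ℂ) (f μ)).re := by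
        simp_rw [Finset.mul_sum]
        rw [Finset.sum_comm]
        refine Finset.sum_congr rfl fun μ _ => ?_
        rw [hf]
        simp only [map_sum, map_mul, Complex.conj_ofReal, Finset.mul_sum, Complex.re_sum]
        refine Finset.sum_congr rfl fun j _ => ?_
        rw [← Complex.re_ofReal_mul]
        congr 1
        ring
      have h4 : ∑ j, p j * (∑ μ, ‖R μ + (f μ - β j μ)‖ ^ 2) =
          (∑ μ, ‖R μ + f μ‖ ^ 2) - 2 * (∑ μ, ((R μ + f μ) * (starRingEnd ℂ) (f μ)).re) +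
            ∑ j, p j * (∑ μ, ‖β j μ‖ ^ 2) := by
        simp_rw [h1, mul_add, mul_sub]
        rw [Finset.sum_add_distrib, Finset.sum_sub_distrib, ← Finset.sum_mul, hp1, one_mul, ← h3,
          Finset.mul_sum]
        congr 2
        refine Finset.sum_congr rfl fun j _ => ?_
        ring
      have h5 : ∑ j, p j * (∑ μ, ‖β j μ‖ ^ 2) ≤ V := by
        calc ∑ j, p j * (∑ μ, ‖β j μ‖ ^ 2) ≤ ∑ j, p j * V :=
              Finset.sum_le_sum fun j _ => mul_le_mul_of_nonneg_left (hV j) (hp j)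
          _ = V := by rw [← Finset.sum_mul, hp1, one_mul]
      have h6 : (∑ μ, ‖R μ + f μ‖ ^ 2) - 2 * (∑ μ, ((R μ + f μ) * (starRingEnd ℂ) (f μ)).re) ≤
          ∑ μ, ‖R μ‖ ^ 2 := by
        rw [Finset.mul_sum, ← Finset.sum_sub_distrib]
        refine Finset.sum_le_sum fun μ _ => ?_
        have h7 := normSq_expand (R μ) (f μ)
        have h8 : ((R μ + f μ) * (starRingEnd ℂ) (f μ)).re =
            (R μ * (starRingEnd ℂ) (f μ)).re + ‖f μ‖ ^ 2 := by
          rw [add_mul, Complex.add_re, Complex.mul_conj, Complex.ofReal_re,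
            Complex.normSq_eq_norm_sq]
        rw [h7, h8]
        nlinarith [sq_nonneg ‖f μ‖]
      have h9 : ∑ μ, ‖R μ‖ ^ 2 ≤ n * V := hk
      rw [h4]
      linarith
    obtain ⟨j, hj⟩ := exists_le_avg p hp hp1 _ _ havg
    refine ⟨Fin.snoc k j, ?_⟩
    have h10 : ∀ μ, ∑ i : Fin (n + 1), (f μ - β ((Fin.snoc k j : Fin (n + 1) → K) i) μ) =
        R μ + (f μ - β j μ) := by
      intro μ
      rw [Fin.sum_univ_castSucc]
      simp [hR]
    change ∑ μ, ‖∑ i : Fin (n + 1), (f μ - β ((Fin.snoc k j : Fin (n + 1) → K) i) μ)‖ ^ 2 ≤ _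
    simp_rw [h10]
    push_cast
    linarith

/-- Hoeffding's lemma for finite averages -/
theorem hoeffding_fin {K : Type*} [Fintype K] (p : K → ℝ) (hp : ∀ k, 0 ≤ p k)
    (hp1 : ∑ k, p k = 1) (ξ : K → ℝ) (c : ℝ) (hc : 0 < c) (hξ : ∀ k, |ξ k| ≤ c)
    (h0 : ∑ k, p k * ξ k = 0) (t : ℝ) :
    ∑ k, p k * Real.exp (t * ξ k) ≤ Real.exp (t ^ 2 * c ^ 2 / 2) := by
  have h1 : ∀ k, Real.exp (t * ξ k) ≤
      (c - ξ k) / (2 * c) * Real.exp (-(t * c)) + (c + ξ k) / (2 * c) * Real.exp (t * c) := by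
    intro k
    have h2 := abs_le.mp (hξ k)
    have ha : 0 ≤ (c - ξ k) / (2 * c) := div_nonneg (by linarith) (by linarith)
    have hb : 0 ≤ (c + ξ k) / (2 * c) := div_nonneg (by linarith) (by linarith)
    have hab : (c - ξ k) / (2 * c) + (c + ξ k) / (2 * c) = 1 := by
      field_simp
      ring
    have h3 := convexOn_exp.2 (Set.mem_univ (-(t * c))) (Set.mem_univ (t * c)) ha hb hab
    simp only [smul_eq_mul] at h3
    have h4 : (c - ξ k) / (2 * c) * -(t * c) + (c + ξ k) / (2 * c) * (t * c) = t * ξ k := by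
      field_simp
      ring
    rw [h4] at h3
    exact h3
  calc ∑ k, p k * Real.exp (t * ξ k)
      ≤ ∑ k, p k * ((c - ξ k) / (2 * c) * Real.exp (-(t * c)) +
          (c + ξ k) / (2 * c) * Real.exp (t * c)) :=
        Finset.sum_le_sum fun k _ => mul_le_mul_of_nonneg_left (h1 k) (hp k)
    _ = Real.cosh (t * c) := by
        have h5 : ∀ k, p k * ((c - ξ k) / (2 * c) * Real.exp (-(t * c)) +
          (c + ξ k) / (2 * c) * Real.exp (t * c)) =
          p k * ((Real.exp (t * c) + Real.exp (-(t * c))) / 2) +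
            (p k * ξ k) * ((Real.exp (t * c) - Real.exp (-(t * c))) / (2 * c)) := by
          intro k
          field_simp
          ring
        simp_rw [h5]
        rw [Finset.sum_add_distrib, ← Finset.sum_mul, ← Finset.sum_mul, hp1, h0, Real.cosh_eq]
        ring
    _ ≤ Real.exp ((t * c) ^ 2 / 2) := Real.cosh_le_exp_half_sq _
    _ = Real.exp (t ^ 2 * c ^ 2 / 2) := by ring_nf

theorem cosh_step {K : Type*} [Fintype K] (p : K → ℝ) (hp : ∀ k, 0 ≤ p k)
    (hp1 : ∑ k, p k = 1) (ξ : K → ℝ) (c : ℝ) (hc : 0 < c) (hξ : ∀ k, |ξ k| ≤ c)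
    (h0 : ∑ k, p k * ξ k = 0) (t x : ℝ) :
    ∑ k, p k * Real.cosh (t * (x + ξ k)) ≤ Real.cosh (t * x) * Real.exp (t ^ 2 * c ^ 2 / 2) := by
  have h1 := hoeffding_fin p hp hp1 ξ c hc hξ h0 t
  have h2 := hoeffding_fin p hp hp1 ξ c hc hξ h0 (-t)
  rw [neg_sq] at h2
  have h3 : ∀ k, p k * Real.cosh (t * (x + ξ k)) =
      Real.exp (t * x) / 2 * (p k * Real.exp (t * ξ k)) +
        Real.exp (-(t * x)) / 2 * (p k * Real.exp (-t * ξ k)) := by
    intro k
    rw [Real.cosh_eq]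
    have e1 : Real.exp (t * (x + ξ k)) = Real.exp (t * x) * Real.exp (t * ξ k) := by
      rw [← Real.exp_add]; ring_nf
    have e2 : Real.exp (-(t * (x + ξ k))) = Real.exp (-(t * x)) * Real.exp (-t * ξ k) := by
      rw [← Real.exp_add]; ring_nf
    rw [e1, e2]
    ring
  simp_rw [h3]
  rw [Finset.sum_add_distrib, ← Finset.mul_sum, ← Finset.mul_sum, Real.cosh_eq]
  have h4 := Real.exp_pos (t * x)
  have h5 := Real.exp_pos (-(t * x))
  nlinarith

/-- Chernoff version with a probability vector: potential form. -/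
theorem maurey_cosh_prob {K Mu : Type*} [Fintype K] [Fintype Mu] (p : K → ℝ)
    (hp : ∀ k, 0 ≤ p k) (hp1 : ∑ k, p k = 1) (β : K → Mu → ℂ) (c : ℝ) (hc : 0 < c)
    (hβ : ∀ k μ, ‖(∑ j, (p j : ℂ) * β j μ) - β k μ‖ ≤ c) (t : ℝ) (n : ℕ) :
    ∃ k : Fin n → K,
      ∑ μ, (Real.cosh (t * (∑ i, ((∑ j, (p j : ℂ) * β j μ) - β (k i) μ)).re) +
        Real.cosh (t * (∑ i, ((∑ j, (p j : ℂ) * β j μ) - β (k i) μ)).im)) ≤
      2 * Fintype.card Mu * Real.exp (n * (t ^ 2 * c ^ 2 / 2)) := by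
  induction n with
  | zero =>
    refine ⟨fun i => i.elim0, ?_⟩
    simp
    ring_nf
    exact le_rfl
  | succ n ih =>
    obtain ⟨k, hk⟩ := ih
    set f : Mu → ℂ := fun μ => ∑ j, (p j : ℂ) * β j μ with hf
    set R : Mu → ℂ := fun μ => ∑ i : Fin n, (f μ - β (k i) μ) with hR
    set X : ℝ := Real.exp (t ^ 2 * c ^ 2 / 2) with hX
    have hXpos : 0 < X := Real.exp_pos _
    have hz : ∀ μ, ∑ j, (p j : ℂ) * (f μ - β j μ) = 0 := by
      intro μ
      simp_rw [mul_sub]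
      rw [Finset.sum_sub_distrib, ← Finset.sum_mul]
      have : (∑ j, (p j : ℂ)) = 1 := by exact_mod_cast congrArg (fun x : ℝ => (x : ℂ)) hp1
      rw [this, one_mul]
      simp [hf]
    have hre : ∀ μ, ∑ j, p j * (f μ - β j μ).re = 0 := by
      intro μ
      have := congrArg Complex.re (hz μ)
      simpa [Complex.re_sum, Complex.re_ofReal_mul] using this
    have him : ∀ μ, ∑ j, p j * (f μ - β j μ).im = 0 := by
      intro μ
      have := congrArg Complex.im (hz μ)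
      simpa [Complex.im_sum, Complex.im_ofReal_mul] using this
    have havg : ∑ j, p j * (∑ μ, (Real.cosh (t * ((R μ).re + (f μ - β j μ).re)) +
        Real.cosh (t * ((R μ).im + (f μ - β j μ).im)))) ≤
        (∑ μ, (Real.cosh (t * (R μ).re) + Real.cosh (t * (R μ).im))) * X := by
      simp_rw [Finset.mul_sum]
      rw [Finset.sum_comm, Finset.sum_mul]
      refine Finset.sum_le_sum fun μ _ => ?_
      simp_rw [mul_add (p _)]
      rw [Finset.sum_add_distrib, add_mul]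
      have h1 := cosh_step p hp hp1 (fun j => (f μ - β j μ).re) c hc
        (fun j => (Complex.abs_re_le_norm _).trans (hβ j μ)) (hre μ) t (R μ).re
      have h2 := cosh_step p hp hp1 (fun j => (f μ - β j μ).im) c hc
        (fun j => (Complex.abs_im_le_norm _).trans (hβ j μ)) (him μ) t (R μ).im
      exact add_le_add h1 h2
    obtain ⟨j, hj⟩ := exists_le_avg p hp hp1 _ _ havg
    refine ⟨Fin.snoc k j, ?_⟩
    have h10 : ∀ μ, ∑ i : Fin (n + 1), (f μ - β ((Fin.snoc k j : Fin (n + 1) → K) i) μ) =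
        R μ + (f μ - β j μ) := by
      intro μ
      rw [Fin.sum_univ_castSucc]
      simp [hR]
    change ∑ μ, (Real.cosh (t * (∑ i : Fin (n + 1),
        (f μ - β ((Fin.snoc k j : Fin (n + 1) → K) i) μ)).re) +
      Real.cosh (t * (∑ i : Fin (n + 1),
        (f μ - β ((Fin.snoc k j : Fin (n + 1) → K) i) μ)).im)) ≤ _
    simp_rw [h10, Complex.add_re, Complex.add_im]
    refine hj.trans ?_
    have h11 : (∑ μ, (Real.cosh (t * (R μ).re) + Real.cosh (t * (R μ).im))) ≤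
        2 * Fintype.card Mu * Real.exp (n * (t ^ 2 * c ^ 2 / 2)) := hk
    calc _ ≤ 2 * Fintype.card Mu * Real.exp (n * (t ^ 2 * c ^ 2 / 2)) * X :=
          mul_le_mul_of_nonneg_right h11 hXpos.le
      _ = 2 * Fintype.card Mu * Real.exp ((n + 1 : ℕ) * (t ^ 2 * c ^ 2 / 2)) := by
          rw [hX, mul_assoc, ← Real.exp_add]
          push_cast
          ring_nf

/-- Chernoff version: few coordinates with a large error. -/
theorem maurey_chernoff_prob {K Mu : Type*} [Fintype K] [Fintype Mu] (p : K → ℝ)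
    (hp : ∀ k, 0 ≤ p k) (hp1 : ∑ k, p k = 1) (β : K → Mu → ℂ) (c : ℝ) (hc : 0 < c)
    (hβ : ∀ k μ, ‖(∑ j, (p j : ℂ) * β j μ) - β k μ‖ ≤ c) (s : ℝ) (hs : 0 ≤ s) (n : ℕ) :
    ∃ k : Fin n → K, ∀ T : Finset Mu,
      (∀ μ ∈ T, n * s < ‖∑ i, ((∑ j, (p j : ℂ) * β j μ) - β (k i) μ)‖) →
      (T.card : ℝ) ≤ 4 * Fintype.card Mu * Real.exp (-(n * (s ^ 2 / (8 * c ^ 2)))) := by
  obtain ⟨k, hk⟩ := maurey_cosh_prob p hp hp1 β c hc hβ (s / (2 * c ^ 2)) n
  refine ⟨k, fun T hT => ?_⟩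
  set t : ℝ := s / (2 * c ^ 2) with ht
  have ht0 : 0 ≤ t := by positivity
  set R : Mu → ℂ := fun μ => ∑ i, ((∑ j, (p j : ℂ) * β j μ) - β (k i) μ) with hR
  have h1 : ∀ μ ∈ T, Real.exp (t * (n * s / 2)) / 2 ≤
      Real.cosh (t * (R μ).re) + Real.cosh (t * (R μ).im) := by
    intro μ hμ
    have h2 : n * s < ‖R μ‖ := hT μ hμ
    have h3 : ‖R μ‖ ≤ |(R μ).re| + |(R μ).im| := Complex.norm_le_abs_re_add_abs_im _
    have key : ∀ y : ℝ, n * s / 2 ≤ |y| → Real.exp (t * (n * s / 2)) / 2 ≤ Real.cosh (t * y) := by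
      intro y hy
      rw [← Real.cosh_abs, abs_mul, abs_of_nonneg ht0, Real.cosh_eq]
      have h4 : Real.exp (t * (n * s / 2)) ≤ Real.exp (t * |y|) :=
        Real.exp_le_exp.mpr (mul_le_mul_of_nonneg_left hy ht0)
      have h5 := Real.exp_pos (-(t * |y|))
      linarith
    have hcr := Real.cosh_pos (t * (R μ).re)
    have hci := Real.cosh_pos (t * (R μ).im)
    by_cases hcase : n * s / 2 ≤ |(R μ).re|
    · have := key _ hcase
      linarith
    · push Not at hcase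
      have h6 : n * s / 2 ≤ |(R μ).im| := by linarith
      have := key _ h6
      linarith
  have h7 : (T.card : ℝ) * (Real.exp (t * (n * s / 2)) / 2) ≤
      2 * Fintype.card Mu * Real.exp (n * (t ^ 2 * c ^ 2 / 2)) := by
    calc (T.card : ℝ) * (Real.exp (t * (n * s / 2)) / 2)
        = ∑ μ ∈ T, Real.exp (t * (n * s / 2)) / 2 := by rw [Finset.sum_const, nsmul_eq_mul]
      _ ≤ ∑ μ ∈ T, (Real.cosh (t * (R μ).re) + Real.cosh (t * (R μ).im)) :=
          Finset.sum_le_sum h1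
      _ ≤ ∑ μ, (Real.cosh (t * (R μ).re) + Real.cosh (t * (R μ).im)) :=
          Finset.sum_le_sum_of_subset_of_nonneg (Finset.subset_univ _) fun μ _ _ =>
            add_nonneg (Real.cosh_pos _).le (Real.cosh_pos _).le
      _ ≤ _ := hk
  have h8 : Real.exp (n * (t ^ 2 * c ^ 2 / 2)) =
      Real.exp (-(n * (s ^ 2 / (8 * c ^ 2)))) * Real.exp (t * (n * s / 2)) := by
    rw [← Real.exp_add]
    congr 1
    rw [ht]
    field_simp
    ring
  rw [h8] at h7
  have h9 := Real.exp_pos (t * (n * s / 2))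
  have h10 : (T.card : ℝ) * (Real.exp (t * (n * s / 2)) / 2) ≤
      (2 * Fintype.card Mu * Real.exp (-(n * (s ^ 2 / (8 * c ^ 2)))) * 2) *
        (Real.exp (t * (n * s / 2)) / 2) := by
    calc _ ≤ _ := h7
      _ = _ := by ring
  have h11 := le_of_mul_le_mul_right h10 (by positivity)
  linarith

/-- the four phases -/
noncomputable def ph (q : Fin 4) : ℂ := Complex.I ^ (q : ℕ)

theorem norm_ph (q : Fin 4) : ‖ph q‖ = 1 := by
  unfold ph
  simp

/-- the weight of a complex number on the four phases -/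
noncomputable def phw (a : ℂ) (q : Fin 4) : ℝ :=
  match q with
  | 0 => max a.re 0
  | 1 => max a.im 0
  | 2 => max (-a.re) 0
  | 3 => max (-a.im) 0

theorem phw_nonneg (a : ℂ) (q : Fin 4) : 0 ≤ phw a q := by
  unfold phw
  fin_cases q <;> simp

theorem sum_phw (a : ℂ) : ∑ q, phw a q ≤ 2 * ‖a‖ := by
  have h1 := Complex.abs_re_le_norm a
  have h2 := Complex.abs_im_le_norm a
  have h3 : ∀ x : ℝ, max x 0 + max (-x) 0 = |x| := by
    intro x
    rcases le_total 0 x with h | h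
    · rw [max_eq_left h, max_eq_right (by linarith), abs_of_nonneg h, add_zero]
    · rw [max_eq_right h, max_eq_left (by linarith), abs_of_nonpos h, zero_add]
  rw [Fin.sum_univ_four]
  simp only [phw]
  have h4 := h3 a.re
  have h5 := h3 a.im
  linarith

theorem sum_phw_ph (a : ℂ) : ∑ q, (phw a q : ℂ) * ph q = a := by
  have h3 : ∀ x : ℝ, max x 0 - max (-x) 0 = x := by
    intro x
    rcases le_total 0 x with h | h
    · rw [max_eq_left h, max_eq_right (by linarith), sub_zero]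
    · rw [max_eq_right h, max_eq_left (by linarith)]
      ring
  rw [Fin.sum_univ_four]
  have e2 : (Complex.I) ^ 2 = -1 := Complex.I_sq
  have e3 : (Complex.I) ^ 3 = -Complex.I := by
    rw [pow_succ, e2]
    ring
  have h0 : ph 0 = 1 := by simp [ph]
  have h1 : ph 1 = Complex.I := by simp [ph]
  have h2 : ph 2 = -1 := by
    unfold ph
    exact e2
  have h4 : ph 3 = -Complex.I := by
    unfold ph
    exact e3
  rw [h0, h1, h2, h4]
  simp only [phw]
  have h5 := h3 a.re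
  have h6 := h3 a.im
  apply Complex.ext
  · simp
    linarith
  · simp
    linarith

/-- the atoms with a phase; `none` is the zero atom -/
noncomputable def atom {J Mu : Type*} (α : J → Mu → ℂ) : Option (J × Fin 4) → Mu → ℂ
  | none => fun _ => 0
  | some x => fun μ => ph x.2 * α x.1 μ

theorem norm_atom_some {J Mu : Type*} (α : J → Mu → ℂ) (x : J × Fin 4) (μ : Mu) :
    ‖atom α (some x) μ‖ = ‖α x.1 μ‖ := by
  unfold atom
  rw [norm_mul, norm_ph, one_mul]

/-- the probability vector of a combination of total mass at most `S` -/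
noncomputable def pv {J : Type*} [Fintype J] (a : J → ℂ) (S : ℝ) : Option (J × Fin 4) → ℝ
  | none => 1 - (∑ x : J × Fin 4, phw (a x.1) x.2) / (2 * S)
  | some x => phw (a x.1) x.2 / (2 * S)

theorem sum_phw_le {J : Type*} [Fintype J] (a : J → ℂ) {S : ℝ} (hS : ∑ j, ‖a j‖ ≤ S) :
    ∑ x : J × Fin 4, phw (a x.1) x.2 ≤ 2 * S := by
  rw [Fintype.sum_prod_type]
  calc ∑ j, ∑ q, phw (a j) q ≤ ∑ j, 2 * ‖a j‖ := Finset.sum_le_sum fun j _ => sum_phw (a j)
    _ = 2 * ∑ j, ‖a j‖ := by rw [Finset.mul_sum]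
    _ ≤ 2 * S := by linarith

theorem pv_nonneg {J : Type*} [Fintype J] (a : J → ℂ) {S : ℝ} (hS0 : 0 < S)
    (hS : ∑ j, ‖a j‖ ≤ S) (k : Option (J × Fin 4)) : 0 ≤ pv a S k := by
  cases k with
  | none =>
    have := sum_phw_le a hS
    simp only [pv]
    have h1 : (∑ x : J × Fin 4, phw (a x.1) x.2) / (2 * S) ≤ 1 := by
      rw [div_le_one (by positivity)]
      exact this
    linarith
  | some x =>
    simp only [pv]
    exact div_nonneg (phw_nonneg _ _) (by positivity)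

theorem pv_sum {J : Type*} [Fintype J] (a : J → ℂ) (S : ℝ) : ∑ k, pv a S k = 1 := by
  rw [Fintype.sum_option]
  simp only [pv]
  rw [← Finset.sum_div]
  ring

theorem pv_mean {J Mu : Type*} [Fintype J] (α : J → Mu → ℂ) (a : J → ℂ) {S : ℝ} (hS0 : 0 < S)
    (μ : Mu) :
    ∑ k, (pv a S k : ℂ) * ((2 * S : ℝ) * atom α k μ) = ∑ j, a j * α j μ := by
  rw [Fintype.sum_option]
  simp only [pv, atom, mul_zero, zero_add]
  rw [Fintype.sum_prod_type]
  refine Finset.sum_congr rfl fun j _ => ?_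
  have h1 : ∀ q : Fin 4, ((phw (a j) q / (2 * S) : ℝ) : ℂ) * (((2 * S : ℝ) : ℂ) *
      (ph q * α j μ)) = ((phw (a j) q : ℂ) * ph q) * α j μ := by
    intro q
    have h2 : (((2 * S : ℝ) : ℂ)) ≠ 0 := by
      exact_mod_cast (by positivity : (2 * S) ≠ 0)
    rw [Complex.ofReal_div]
    field_simp
  simp_rw [h1]
  rw [← Finset.sum_mul, sum_phw_ph]

/-- Maurey, `L²` form. -/
theorem maurey_L2 {J Mu : Type*} [Fintype J] [Fintype Mu] (α : J → Mu → ℂ) (a : J → ℂ)
    (S V : ℝ) (hS0 : 0 < S) (hS : ∑ j, ‖a j‖ ≤ S) (hV0 : 0 ≤ V)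
    (hV : ∀ j, ∑ μ, ‖α j μ‖ ^ 2 ≤ V) (n : ℕ) (hn : 0 < n) :
    ∃ k : Fin n → Option (J × Fin 4),
      ∑ μ, ‖(∑ j, a j * α j μ) - ((2 * S / n : ℝ) : ℂ) * ∑ i, atom α (k i) μ‖ ^ 2 ≤
        4 * S ^ 2 * V / n := by
  have hn' : (0 : ℝ) < n := by exact_mod_cast hn
  obtain ⟨k, hk⟩ := maurey_L2_prob (pv a S) (pv_nonneg a hS0 hS) (pv_sum a S)
    (fun k μ => ((2 * S : ℝ) : ℂ) * atom α k μ) (4 * S ^ 2 * V) (by
      intro k
      cases k with
      | none =>
        simp [atom]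
        positivity
      | some x =>
        simp_rw [norm_mul, mul_pow, norm_atom_some]
        rw [← Finset.mul_sum, Complex.norm_real, Real.norm_eq_abs, sq_abs]
        have := hV x.1
        calc (2 * S) ^ 2 * ∑ μ, ‖α x.1 μ‖ ^ 2 ≤ (2 * S) ^ 2 * V := by gcongr
          _ = 4 * S ^ 2 * V := by ring) n
  refine ⟨k, ?_⟩
  simp_rw [pv_mean α a hS0] at hk
  have h1 : ∀ μ, ‖(∑ j, a j * α j μ) - ((2 * S / n : ℝ) : ℂ) * ∑ i, atom α (k i) μ‖ ^ 2 =
      (1 / n ^ 2) * ‖∑ i : Fin n, ((∑ j, a j * α j μ) - ((2 * S : ℝ) : ℂ) * atom α (k i) μ)‖ ^ 2 := by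
    intro μ
    rw [Finset.sum_sub_distrib, Finset.sum_const, Finset.card_univ, Fintype.card_fin,
      ← Finset.mul_sum, nsmul_eq_mul]
    have h2 : (∑ j, a j * α j μ) - ((2 * S / n : ℝ) : ℂ) * ∑ i, atom α (k i) μ =
        ((1 / n : ℝ) : ℂ) * ((n : ℂ) * (∑ j, a j * α j μ) -
          ((2 * S : ℝ) : ℂ) * ∑ i, atom α (k i) μ) := by
      have h3 : (n : ℂ) ≠ 0 := by exact_mod_cast hn.ne'
      push_cast
      field_simp
    rw [h2, norm_mul, Complex.norm_real, Real.norm_eq_abs, abs_of_pos (by positivity), mul_pow]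
    ring
  simp_rw [h1]
  rw [← Finset.mul_sum]
  calc 1 / (n : ℝ) ^ 2 * ∑ μ, ‖∑ i : Fin n, ((∑ j, a j * α j μ) -
        ((2 * S : ℝ) : ℂ) * atom α (k i) μ)‖ ^ 2
      ≤ 1 / (n : ℝ) ^ 2 * (n * (4 * S ^ 2 * V)) := by gcongr
    _ = 4 * S ^ 2 * V / n := by field_simp

/-- Maurey, Chernoff form: all coordinates of the atoms bounded by `1`. -/
theorem maurey_chernoff {J Mu : Type*} [Fintype J] [Fintype Mu] (α : J → Mu → ℂ) (a : J → ℂ)
    (S : ℝ) (hS0 : 0 < S) (hS : ∑ j, ‖a j‖ ≤ S) (hα : ∀ j μ, ‖α j μ‖ ≤ 1) (t : ℝ) (ht : 0 ≤ t)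
    (n : ℕ) (hn : 0 < n) :
    ∃ k : Fin n → Option (J × Fin 4), ∀ T : Finset Mu,
      (∀ μ ∈ T, t < ‖(∑ j, a j * α j μ) - ((2 * S / n : ℝ) : ℂ) * ∑ i, atom α (k i) μ‖) →
      (T.card : ℝ) ≤ 4 * Fintype.card Mu * Real.exp (-(n * (t ^ 2 / (72 * S ^ 2)))) := by
  have hn' : (0 : ℝ) < n := by exact_mod_cast hn
  have hat : ∀ k μ, ‖atom α k μ‖ ≤ 1 := by
    intro k μ
    cases k with
    | none => simp [atom]
    | some x => rw [norm_atom_some]; exact hα _ _
  have hf : ∀ μ, ‖∑ j, a j * α j μ‖ ≤ S := by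
    intro μ
    refine (norm_sum_le _ _).trans ((Finset.sum_le_sum fun j _ => ?_).trans hS)
    rw [norm_mul]
    calc ‖a j‖ * ‖α j μ‖ ≤ ‖a j‖ * 1 := mul_le_mul_of_nonneg_left (hα j μ) (norm_nonneg _)
      _ = ‖a j‖ := mul_one _
  obtain ⟨k, hk⟩ := maurey_chernoff_prob (pv a S) (pv_nonneg a hS0 hS) (pv_sum a S)
    (fun k μ => ((2 * S : ℝ) : ℂ) * atom α k μ) (3 * S) (by positivity) (by
      intro k μ
      rw [pv_mean α a hS0]
      refine (norm_sub_le _ _).trans ?_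
      rw [norm_mul, Complex.norm_real, Real.norm_eq_abs, abs_of_pos (by positivity : 0 < 2 * S)]
      have h1 := hf μ
      have h2 := hat k μ
      nlinarith) t ht n
  refine ⟨k, fun T hT => ?_⟩
  have h3 := hk T (by
    intro μ hμ
    rw [pv_mean α a hS0]
    have h4 := hT μ hμ
    have h5 : ‖∑ i : Fin n, ((∑ j, a j * α j μ) - ((2 * S : ℝ) : ℂ) * atom α (k i) μ)‖ =
        n * ‖(∑ j, a j * α j μ) - ((2 * S / n : ℝ) : ℂ) * ∑ i, atom α (k i) μ‖ := by
      rw [Finset.sum_sub_distrib, Finset.sum_const, Finset.card_univ, Fintype.card_fin,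
        ← Finset.mul_sum, nsmul_eq_mul]
      have h6 : (n : ℂ) * (∑ j, a j * α j μ) - ((2 * S : ℝ) : ℂ) * ∑ i, atom α (k i) μ =
          (n : ℂ) * ((∑ j, a j * α j μ) - ((2 * S / n : ℝ) : ℂ) * ∑ i, atom α (k i) μ) := by
        have h7 : (n : ℂ) ≠ 0 := by exact_mod_cast hn.ne'
        push_cast
        field_simp
      rw [h6, norm_mul, Complex.norm_natCast]
    rw [h5]
    exact mul_lt_mul_of_pos_left h4 hn')
  have h8 : 8 * (3 * S) ^ 2 = 72 * S ^ 2 := by ring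
  rw [h8] at h3
  exact h3

end Pool.Agent.H74.CM
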